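import Mathlib

set_option autoImplicit false

open MeasureTheory Filter Set ProbabilityTheory
open scoped Topology

namespace Pool.Agent.Results.MP_ae1cd8_an.Unbounded

def IsC0 {X : Type} [NormedAddCommGroup X] [NormedSpace ℂ X] (T : ℝ → X →L[ℂ] X) : Prop :=
  T 0 = 1 ∧ (∀ s t, 0 ≤ s → 0 ≤ t → T (s + t) = T s * T t) ∧
    ∀ x, ContinuousOn (fun t => T t x) (Ici 0)

def InGen {X : Type} [NormedAddCommGroup X] [NormedSpace ℂ X] (T : ℝ → X →L[ℂ] X) (x y : X) :
    Prop :=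
  Tendsto (fun h : ℝ => ((h : ℂ))⁻¹ • (T h x - x)) (𝓝[>] 0) (𝓝 y)

def GeneratesBounded {X : Type} [NormedAddCommGroup X] [NormedSpace ℂ X] (G : X → X → Prop) :
    Prop :=
  ∃ T : ℝ → X →L[ℂ] X, IsC0 T ∧ (∀ x y, InGen T x y ↔ G x y) ∧ ∃ M, ∀ t, 0 ≤ t → ‖T t‖ ≤ M

noncomputable def sig {Ω : Type} [MeasurableSpace Ω] (ν : Measure Ω) (p : Ω → Ω → ℝ) (x : Ω) : ℝ :=
  ∫ y, p y x ∂ν

def Graph {Ω : Type} [MeasurableSpace Ω] (ν μ : Measure Ω) (p : Ω → Ω → ℝ) (φ ψ : Ω → ℂ) : Prop :=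
  Integrable (fun x => (sig ν p x : ℂ) * φ x) μ ∧
    ψ =ᵐ[μ] fun x => -(sig ν p x : ℂ) * φ x + ∫ y, (p x y : ℂ) * φ y ∂ν

def Data {Ω : Type} [MeasurableSpace Ω] (ν : Measure Ω) (p : Ω → Ω → ℝ) (ω : Ω → ℝ) : Prop :=
  SigmaFinite ν ∧ Measurable (Function.uncurry p) ∧ (∀ x y, 0 < p x y) ∧ Measurable ω ∧
    (∀ x, 0 < ω x) ∧ (∀ x y, ω x * p x y = ω y * p y x) ∧
    (∀ x, Integrable (fun y => p y x) ν ∧ 0 < sig ν p x) ∧
    ∃ C : ℝ, ∀ y, Integrable (fun x => p y x) ν ∧ ∫ x, p y x ∂ν ≤ C * (1 + sig ν p y)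

section abs
variable {X : Type} [NormedAddCommGroup X] [NormedSpace ℂ X] {T : ℝ → X →L[ℂ] X}

lemma deriv_right (hT : IsC0 T) {x y : X} (h : InGen T x y) {t : ℝ} (ht : 0 ≤ t) :
    HasDerivWithinAt (fun s => T s x) (T t y) (Ici t) t := by
  rw [← hasDerivWithinAt_Ioi_iff_Ici, hasDerivWithinAt_iff_tendsto_slope' (by simp)]
  have h1 : Tendsto (fun s : ℝ => s - t) (𝓝[>] t) (𝓝[>] 0) := by
    refine tendsto_nhdsWithin_iff.2 ⟨?_, ?_⟩
    · have : Tendsto (fun s : ℝ => s - t) (𝓝 t) (𝓝 (t - t)) :=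
        (continuous_id.sub continuous_const).tendsto t
      rw [sub_self] at this
      exact this.mono_left nhdsWithin_le_nhds
    · filter_upwards [self_mem_nhdsWithin] with s hs using sub_pos.2 (show t < s from hs)
  refine (((T t).continuous.tendsto y).comp (h.comp h1)).congr' ?_
  filter_upwards [self_mem_nhdsWithin] with s hs
  have hs' : 0 ≤ s - t := (sub_pos.2 (show t < s from hs)).le
  have e : T s = T t * T (s - t) := by rw [← hT.2.1 t _ ht hs']; congr 1; ring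
  simp only [Function.comp, slope_def_module, map_smul, map_sub, e, mul_apply_eq_comp]
  rw [← Complex.ofReal_inv, Complex.coe_smul]

lemma key (hT : IsC0 T) {M : ℝ} (hM : ∀ t, 0 ≤ t → ‖T t‖ ≤ M) {e φ g : X} (he : InGen T e 0)
    (hφ : InGen T φ g) : ‖e‖ ≤ M * ‖g - e‖ := by
  have c : ∀ t, 0 ≤ t → T t e = e := fun t ht => by
    have := constant_of_has_deriv_right_zero (f := fun s => T s e) (a := 0) (b := t)
      ((hT.2.2 e).mono Icc_subset_Ici_self)
      (fun s hs => by simpa using deriv_right hT he hs.1) t ⟨ht, le_rfl⟩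
    simpa [hT.1] using this
  have b : ∀ t, 0 ≤ t → t * ‖e‖ ≤ (M + 1) * ‖φ‖ + M * ‖g - e‖ * t := fun t ht => by
    have := norm_image_sub_le_of_norm_deriv_right_le_segment (f := fun s => T s φ - s • e)
      (f' := fun s => T s (g - e)) (a := 0) (b := t) (C := M * ‖g - e‖)
      (((hT.2.2 φ).mono Icc_subset_Ici_self).sub (by fun_prop))
      (fun s hs => by
        have := (deriv_right hT hφ hs.1).sub
          (((hasDerivAt_id s).smul_const e).hasDerivWithinAt (s := Ici s))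
        rw [map_sub, c s hs.1]
        rw [one_smul] at this
        exact this)
      (fun s hs => ((T s).le_opNorm _).trans (by gcongr; exact hM s hs.1)) t ⟨ht, le_rfl⟩
    simp only [hT.1, zero_smul, sub_zero, one_apply_eq_self] at this
    have h2 : ‖T t φ‖ ≤ M * ‖φ‖ := ((T t).le_opNorm _).trans (by gcongr; exact hM t ht)
    have h3 : ‖t • e‖ ≤ ‖T t φ‖ + ‖φ‖ + ‖T t φ - t • e - φ‖ := by
      have : t • e = T t φ - φ - (T t φ - t • e - φ) := by abel
      calc ‖t • e‖ = ‖T t φ - φ - (T t φ - t • e - φ)‖ := congrArg _ this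
        _ ≤ _ := (norm_sub_le _ _).trans (by gcongr; exact norm_sub_le _ _)
    rw [norm_smul, Real.norm_of_nonneg ht] at h3
    linarith
  by_contra hc
  push Not at hc
  have hd : 0 < ‖e‖ - M * ‖g - e‖ := sub_pos.2 hc
  have h0 : 0 ≤ M := (norm_nonneg _).trans (hM 0 le_rfl)
  have := b (((M + 1) * ‖φ‖ + 1) / (‖e‖ - M * ‖g - e‖)) (by positivity)
  have h4 := div_mul_cancel₀ ((M + 1) * ‖φ‖ + 1) hd.ne'
  nlinarith

end abs

lemma main {Ω : Type} [MeasurableSpace Ω] (ν : Measure Ω) [IsProbabilityMeasure ν] (ω : Ω → ℝ)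
    (hm : Measurable ω) (h0 : ∀ x, 0 < ω x) (h1 : ∀ x, ω x ≤ 1)
    (hi : Integrable (fun x => (ω x)⁻¹) ν) (hs : ∀ ε, 0 < ε → ν {x | ω x < ε} ≠ 0) (μ : Measure Ω)
    (hμ : μ = ν.withDensity fun x => ENNReal.ofReal (ω x)) :
    ¬ GeneratesBounded fun φ ψ : Lp ℂ 1 μ => Graph ν μ (fun _ y => ω y) φ ψ := by
  rintro ⟨T, hT, hG, M, hM⟩
  have hσ : ∀ x, sig ν (fun _ y => ω y) x = ω x := fun x => by simp [sig]
  have hne : ∀ x, (ω x : ℂ) ≠ 0 := fun x => Complex.ofReal_ne_zero.2 (h0 x).ne'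
  have hint : ∀ f : Ω → ℂ, Integrable f μ ↔ Integrable (fun x => (ω x : ℂ) * f x) ν := fun f => by
    rw [hμ, integrable_withDensity_iff_integrable_smul' (by fun_prop) (by simp)]
    simp [ENNReal.toReal_ofReal (h0 _).le]
  have hac : ν ≪ μ := hμ ▸ withDensity_absolutelyContinuous' (by fun_prop)
    (ae_of_all _ fun x => by simp [h0 x])
  have hnorm : ∀ (f : Ω → ℂ) (hf : Integrable f μ),
      ‖hf.toL1 f‖ = ∫ x, ω x * ‖f x‖ ∂ν := fun f hf => by
    rw [L1.norm_of_fun_eq_integral_norm, hμ,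
      integral_withDensity_eq_integral_toReal_smul (by fun_prop) (by simp)]
    simp [ENNReal.toReal_ofReal (h0 _).le]
  have hiC : Integrable (fun x => (ω x : ℂ)⁻¹) ν := by simpa using hi.ofReal (𝕜 := ℂ)
  have hdown : ∀ f : Ω → ℂ, Integrable f ν → Integrable f μ := fun f hf =>
    (hint f).2 (hf.bdd_mul (c := 1) (by fun_prop) (ae_of_all _ fun x => by
      rw [Complex.norm_real, Real.norm_of_nonneg (h0 x).le]; exact h1 x))
  have gen : ∀ (φ ψ : Ω → ℂ) (hφ : Integrable φ μ) (hψ : Integrable ψ μ),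
      (∀ x, ψ x = -(ω x : ℂ) * φ x + ∫ y, (ω y : ℂ) * φ y ∂ν) →
      InGen T (hφ.toL1 φ) (hψ.toL1 ψ) := fun φ ψ hφ hψ h => by
    refine (hG _ _).2 ⟨?_, ?_⟩
    · simp only [hσ]
      exact (L1.integrable_coeFn _).bdd_mul (c := 1) (by fun_prop) (ae_of_all _ fun x => by
        rw [Complex.norm_real, Real.norm_of_nonneg (h0 x).le]; exact h1 x)
    · have e : ∫ y, (ω y : ℂ) * (hφ.toL1 φ) y ∂ν = ∫ y, (ω y : ℂ) * φ y ∂ν :=
        integral_congr_ae (by
          filter_upwards [hac.ae_le hφ.coeFn_toL1] with y hy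
          rw [hy])
      filter_upwards [hφ.coeFn_toL1, hψ.coeFn_toL1] with x h1 h2
      rw [h2, h1, hσ, e, h]
  have he := gen (fun x => (ω x : ℂ)⁻¹) 0 (hdown _ hiC) (integrable_zero _ _ _) fun x => by
    simp [hne]
  rw [Integrable.toL1_zero] at he
  set m := ∫ x, (ω x)⁻¹ ∂ν with hmdef
  have hm0 : 0 ≤ m := integral_nonneg fun x => (inv_pos.2 (h0 x)).le
  have hM0 : 0 ≤ M := (norm_nonneg _).trans (hM 0 le_rfl)
  obtain ⟨ε, hε⟩ : ∃ ε : ℝ, ε = (M * m + 1)⁻¹ := ⟨_, rfl⟩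
  have hε0 : 0 < ε := by rw [hε]; positivity
  set A := {x | ω x < ε} with hA
  have hAm : MeasurableSet A := measurableSet_lt hm measurable_const
  have ha : 0 < ν.real A := ENNReal.toReal_pos (hs ε hε0) (measure_ne_top _ _)
  set r : Ω → ℂ := A.indicator fun _ => ((m / ν.real A : ℝ) : ℂ) with hr
  have hri : Integrable r ν := (integrable_const _).indicator hAm
  have hgi : Integrable (fun x => (ω x : ℂ)⁻¹ - r x) ν := hiC.sub hri
  have hφi : Integrable (fun x => -(ω x : ℂ)⁻¹ * ((ω x : ℂ)⁻¹ - r x)) μ := by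
    rw [hint]
    refine hgi.neg.congr (ae_of_all _ fun x => ?_)
    have := hne x
    simp only [Pi.neg_apply]
    field_simp
  have hz : ∫ y, (ω y : ℂ) * (-(ω y : ℂ)⁻¹ * ((ω y : ℂ)⁻¹ - r y)) ∂ν = 0 := by
    have : ∀ y, (ω y : ℂ) * (-(ω y : ℂ)⁻¹ * ((ω y : ℂ)⁻¹ - r y)) = r y - (ω y : ℂ)⁻¹ := fun y => by
      have := hne y
      field_simp
      ring
    simp only [this]
    rw [integral_sub hri hiC, hr, integral_indicator_const _ hAm, Complex.real_smul,
      ← Complex.ofReal_mul, mul_div_cancel₀ _ ha.ne', hmdef, ← integral_complex_ofReal]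
    simp
  have hφ := gen _ _ hφi (hdown _ hgi) fun x => by
    rw [hz]
    have := hne x
    field_simp
    ring
  have k := key hT hM he hφ
  rw [← Integrable.toL1_sub, hnorm, hnorm] at k
  have k1 : ∫ x, ω x * ‖(ω x : ℂ)⁻¹‖ ∂ν = 1 := by
    have : ∀ x, ω x * ‖(ω x : ℂ)⁻¹‖ = 1 := fun x => by
      rw [norm_inv, Complex.norm_real, Real.norm_of_nonneg (h0 x).le, mul_inv_cancel₀ (h0 x).ne']
    simp only [this]
    simp
  have k2 : ∫ x, ω x * ‖((fun x => (ω x : ℂ)⁻¹ - r x) - fun x => (ω x : ℂ)⁻¹) x‖ ∂ν ≤ ε * m := by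
    calc _ ≤ ∫ x, A.indicator (fun _ => ε * (m / ν.real A)) x ∂ν := by
          refine integral_mono_of_nonneg (ae_of_all _ fun x => mul_nonneg (h0 x).le (norm_nonneg _))
            ((integrable_const _).indicator hAm) (ae_of_all _ fun x => ?_)
          by_cases hx : x ∈ A
          · simp only [Pi.sub_apply, sub_sub_cancel_left, norm_neg, hr, indicator_of_mem hx,
              Complex.norm_real, Real.norm_of_nonneg (div_nonneg hm0 ha.le)]
            exact mul_le_mul_of_nonneg_right (le_of_lt hx) (div_nonneg hm0 ha.le)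
          · simp [hr, indicator_of_notMem hx]
      _ = ε * m := by
          rw [integral_indicator_const _ hAm, smul_eq_mul]
          field_simp
  rw [k1] at k
  have k3 : ε * (M * m + 1) = 1 := by rw [hε]; field_simp
  nlinarith [mul_le_mul_of_nonneg_left k2 hM0]

theorem result : ∃ (ν : Measure ℝ) (p : ℝ → ℝ → ℝ) (ω : ℝ → ℝ), Data ν p ω ∧
    ∃ μ : Measure ℝ, μ = ν.withDensity (fun x => ENNReal.ofReal (ω x)) ∧
      Integrable (fun x => (ω x)⁻¹) μ ∧
      ¬ GeneratesBounded fun φ ψ : Lp ℂ 1 μ => Graph ν μ p φ ψ := by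
  have h0 : ∀ x : ℝ, 0 < (1 + |x|)⁻¹ := fun x => by positivity
  have h1 : ∀ x : ℝ, (1 + |x|)⁻¹ ≤ 1 := fun x =>
    inv_le_one_of_one_le₀ (by linarith [abs_nonneg x])
  have hm : Measurable fun x : ℝ => (1 + |x|)⁻¹ := by fun_prop
  have hw : Integrable (fun x : ℝ => (1 + |x|)⁻¹) (gaussianReal 0 1) :=
    (integrable_const (1 : ℝ)).mono' hm.aestronglyMeasurable
      (ae_of_all _ fun x => by rw [Real.norm_of_nonneg (h0 x).le]; exact h1 x)
  refine ⟨gaussianReal 0 1, fun _ y => (1 + |y|)⁻¹, fun x => (1 + |x|)⁻¹,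
    ⟨inferInstance, hm.comp measurable_snd, fun _ y => h0 y, hm, h0, fun x y => mul_comm _ _,
      fun x => ⟨integrable_const _, by simpa [sig] using h0 x⟩, 1, fun y => ⟨hw, ?_⟩⟩,
    _, rfl, ?_, main _ _ hm h0 h1 ?_ (fun ε hε h => ?_) _ rfl⟩
  · have := integral_mono hw (integrable_const (1 : ℝ)) h1
    have h2 := h0 y
    simp [sig] at this ⊢
    linarith
  · rw [integrable_withDensity_iff_integrable_smul' (by fun_prop) (by simp)]
    refine (integrable_const (1 : ℝ)).congr (ae_of_all _ fun x => ?_)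
    simp only [ENNReal.toReal_ofReal (h0 _).le, smul_eq_mul, mul_inv_cancel₀ (h0 x).ne']
  · simp only [inv_inv]
    exact (integrable_const _).add
      ((memLp_id_gaussianReal (μ := 0) (v := 1) 1).integrable le_rfl).abs
  · have := gaussianReal_absolutelyContinuous' 0 (v := 1) one_ne_zero h
    have h2 := measure_mono_null (s := Ioi ε⁻¹) (fun x (hx : ε⁻¹ < x) => ?_) this
    · simp at h2
    · exact inv_lt_of_inv_lt₀ hε (by linarith [le_abs_self x])

end Pool.Agent.Results.MP_ae1cd8_an.Unbounded
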